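import Pool.Agent.Q120.KAPDefs
import Pool.Agent.Q120.KAPFinal

/-!
# Beating random colourings for monochromatic `k`-term progressions, all `k ≥ 3` and `r ≥ 2`

`Q120.KAP.monoCount k n χ` (file `Pool/Agent/Q120/KAPDefs.lean`) is the number of `k`-APs
`{a, a + d, …, a + (k - 1) d} ⊆ {1, …, n}`, `a, d ≥ 1`, on which `χ` is constant.
-/

namespace Pool.Agent.Results.MP_6bff71_co.BeatRandomAllCases

open Q120.KAP

/-- For all `k ≥ 3` and `r ≥ 2` there are a constant `δ` strictly below the random rate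
`1 / (2 (k - 1) r ^ (k - 1))` and, for each `n ≥ 1`, an `r`-colouring `χ_n` of `{1, …, n}` whose
number of monochromatic `k`-APs is `δ n² + O(n)`, with the implied constant `C` independent
of `n`. -/
theorem result : ∀ k r : ℕ, 3 ≤ k → 2 ≤ r →
    ∃ δ : ℝ, δ < 1 / (2 * ((k : ℝ) - 1) * (r : ℝ) ^ (k - 1)) ∧
      ∃ C : ℝ, ∀ n : ℕ, 1 ≤ n → ∃ χ : ℕ → Fin r,
        |(monoCount k n χ : ℝ) - δ * (n : ℝ) ^ 2| ≤ C * n := by
  intro k r hk hr
  obtain ⟨δ, hδ, C, hC⟩ := main_cnt hk hr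
  refine ⟨δ, hδ, C, fun n hn => ?_⟩
  obtain ⟨χ, hχ⟩ := hC n hn
  exact ⟨χ, by rw [monoCount_eq (by omega) χ]; exact hχ⟩

end Pool.Agent.Results.MP_6bff71_co.BeatRandomAllCases
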